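import Pool.Agent.Y746.OM.Stm
import Pool.Agent.H370R2.PC3
import Pool.Agent.H370R2.DirGood
import Pool.Agent.H345R2.A2.EFb

set_option autoImplicit false

/-! The explicit formula for the kernel of project OM. -/

namespace Pool.Agent.Y576.OM

open Complex Filter Topology MeasureTheory Set
open scoped ComplexConjugate
open Pool.Agent.Y746.OM
open H370 (zz hh mult Zf zset AA AA_eq hh_eq zz_refl mult_refl sum_refl mem_Zf good_zeta GoodL pterm)
open H370.A2 (lamC lamC_norm ld_zeta ef_known)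

/-- the half transform of the zeros -/
noncomputable def HT (B U1 U2 t : ℝ) : ℂ :=
  ∫ u in (0 : ℝ)..B, ((1 - u / B : ℝ) : ℂ) * cexp (-(I * (u : ℂ) * t)) *
    AA riemannZeta U1 U2 u t

/-- the half kernel -/
noncomputable def chi (B : ℝ) (w : ℂ) : ℂ :=
  ∫ u in (0 : ℝ)..B, ((1 - u / B : ℝ) : ℂ) * cexp (I * (u : ℂ) * w)

lemma KB_chi (B : ℝ) (w : ℂ) : KB B w = cexp (-w ^ 2 / 2) * (chi B w + chi B (-w)) := by
  unfold KB chi
  rw [← intervalIntegral.integral_add (Continuous.intervalIntegrable (by fun_prop) _ _)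
    (Continuous.intervalIntegrable (by fun_prop) _ _)]
  congr 1
  refine intervalIntegral.integral_congr fun u _ => ?_
  show ((1 - u / B : ℝ) : ℂ) * (2 * Complex.cos (u * w)) =
    ((1 - u / B : ℝ) : ℂ) * cexp (I * (u : ℂ) * w) +
    ((1 - u / B : ℝ) : ℂ) * cexp (I * (u : ℂ) * (-w))
  unfold Complex.cos
  have e3 : (u * w * I : ℂ) = I * (u : ℂ) * w := by ring
  have e4 : (-(u * w) * I : ℂ) = I * (u : ℂ) * (-w) := by ring
  rw [e3, e4]
  ring

lemma chi_conj (B : ℝ) (w : ℂ) : conj (chi B w) = chi B (-(conj w)) := by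
  unfold chi
  rw [← intervalIntegral.intervalIntegral_conj]
  refine intervalIntegral.integral_congr fun u _ => ?_
  show conj (((1 - u / B : ℝ) : ℂ) * cexp (I * (u : ℂ) * w)) =
    ((1 - u / B : ℝ) : ℂ) * cexp (I * (u : ℂ) * (-(conj w)))
  rw [map_mul, Complex.conj_ofReal, ← Complex.exp_conj, map_mul, map_mul, Complex.conj_I,
    Complex.conj_ofReal]
  congr 2
  ring

lemma HT_eq (B : ℝ) {U1 U2 : ℝ} (hU : 1 ≤ U1) (t : ℝ) :
    HT B U1 U2 t = ∑ s ∈ Zf riemannZeta U1 U2, (mult riemannZeta s : ℂ) *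
      cexp (-(zz s - t) ^ 2 / 2) * chi B (zz s - t) := by
  unfold HT chi
  have h1 : ∀ u : ℝ, ((1 - u / B : ℝ) : ℂ) * cexp (-(I * (u : ℂ) * t)) *
      AA riemannZeta U1 U2 u t = ∑ s ∈ Zf riemannZeta U1 U2, (mult riemannZeta s : ℂ) *
        cexp (-(zz s - t) ^ 2 / 2) * (((1 - u / B : ℝ) : ℂ) * cexp (I * (u : ℂ) * (zz s - t))) := by
    intro u
    rw [AA_eq good_zeta hU, Finset.mul_sum]
    refine Finset.sum_congr rfl fun s _ => ?_
    rw [hh_eq]
    have e : cexp (I * (u : ℂ) * (zz s - t)) =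
        cexp (-(I * (u : ℂ) * t)) * cexp (I * (u : ℂ) * zz s) := by
      rw [← Complex.exp_add]; congr 1; ring
    rw [e]
    ring
  simp_rw [h1]
  rw [intervalIntegral.integral_finsetSum fun s _ =>
    Continuous.intervalIntegrable (by fun_prop) _ _]
  simp_rw [intervalIntegral.integral_const_mul]

/-- the statistic with the full kernel -/
lemma full (B : ℝ) {U1 U2 : ℝ} (hU : 1 ≤ U1) (t : ℝ) :
    ∑ s ∈ Zf riemannZeta U1 U2, (mult riemannZeta s : ℂ) * KB B (zz s - t) =
      ((2 * (HT B U1 U2 t).re : ℝ) : ℂ) := by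
  have h1 : conj (HT B U1 U2 t) = ∑ s ∈ Zf riemannZeta U1 U2, (mult riemannZeta s : ℂ) *
      cexp (-(zz s - t) ^ 2 / 2) * chi B (-(zz s - t)) := by
    rw [HT_eq B hU, map_sum, ← sum_refl good_zeta hU (fun s => (mult riemannZeta s : ℂ) *
      cexp (-(zz s - t) ^ 2 / 2) * chi B (-(zz s - t)))]
    refine Finset.sum_congr rfl fun s hs => ?_
    rw [mem_Zf good_zeta hU] at hs
    rw [map_mul, map_mul, Complex.conj_natCast, chi_conj, zz_refl,
      mult_refl good_zeta hs.1 hs.2.1 (by linarith [hs.2.2.1]), ← Complex.exp_conj]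
    congr 2
    · simp only [map_div₀, map_neg, map_pow, map_sub, Complex.conj_ofReal, Complex.conj_ofNat]
    · simp only [map_sub, Complex.conj_ofReal]
  have h2 : ((2 * (HT B U1 U2 t).re : ℝ) : ℂ) = HT B U1 U2 t + conj (HT B U1 U2 t) := by
    rw [Complex.add_conj]
  rw [h2, h1, HT_eq B hU, ← Finset.sum_add_distrib]
  refine Finset.sum_congr rfl fun s _ => ?_
  rw [KB_chi]
  ring

lemma full_re (B : ℝ) {U1 U2 : ℝ} (hU : 1 ≤ U1) (t : ℝ) :
    ∑ s ∈ Zf riemannZeta U1 U2, (mult riemannZeta s : ℝ) * (KB B (zz s - t)).re =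
      2 * (HT B U1 U2 t).re := by
  have h1 := congrArg Complex.re (full B (U2 := U2) hU t)
  rw [Complex.ofReal_re, Complex.re_sum] at h1
  rw [← h1]
  refine Finset.sum_congr rfl fun s _ => ?_
  rw [← Complex.ofReal_natCast, Complex.re_ofReal_mul]

/-- the prime sum -/
noncomputable def PD (B : ℝ) (X : ℕ) (t : ℝ) : ℂ :=
  ∑ n ∈ Finset.Icc 1 X, (lamC n * (Real.sqrt n : ℂ)⁻¹ * (GB B n : ℂ)) * (n : ℂ) ^ (-(t : ℂ) * I)

lemma PD_re (B : ℝ) (X : ℕ) (t : ℝ) : (PD B X t).re =
    ∑ n ∈ Finset.Icc 2 X, ArithmeticFunction.vonMangoldt n / Real.sqrt n *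
            GB B n * Real.cos (t * Real.log n) := by
  unfold PD
  rw [Complex.re_sum]
  have hterm : ∀ n ∈ Finset.Icc 1 X,
      ((lamC n * (Real.sqrt n : ℂ)⁻¹ * (GB B n : ℂ)) * (n : ℂ) ^ (-(t : ℂ) * I)).re =
      ArithmeticFunction.vonMangoldt n / Real.sqrt n * GB B n * Real.cos (t * Real.log n) := by
    intro n hn
    have hn1 : 1 ≤ n := (Finset.mem_Icc.mp hn).1
    have hn0 : (n : ℂ) ≠ 0 := by exact_mod_cast (by omega : n ≠ 0)
    have h1 : (n : ℂ) ^ (-(t : ℂ) * I) = cexp (((-(t * Real.log n) : ℝ) : ℂ) * I) := by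
      rw [Complex.cpow_def_of_ne_zero hn0, ← Complex.natCast_log]
      congr 1
      push_cast
      ring
    have h2 : lamC n * (Real.sqrt n : ℂ)⁻¹ * (GB B n : ℂ) =
        ((ArithmeticFunction.vonMangoldt n / Real.sqrt n * GB B n : ℝ) : ℂ) := by
      unfold H370.A2.lamC
      push_cast
      ring
    rw [h1, h2, Complex.re_ofReal_mul, Complex.exp_ofReal_mul_I_re, Real.cos_neg]
  rw [Finset.sum_congr rfl hterm]
  refine (Finset.sum_subset (Finset.Icc_subset_Icc (by norm_num) le_rfl) ?_).symm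
  intro n hn hn'
  rw [Finset.mem_Icc] at hn hn'
  have h1 : n = 1 := by omega
  rw [h1, ArithmeticFunction.vonMangoldt_apply_one]
  ring

/-- the explicit formula, integrated against the kernel -/
lemma H_est (B U1 U2 t L C E : ℝ) (X : ℕ) (hU : 1 ≤ U1)
    (hB : 0 < B)
    (h : ∀ u : ℝ, 0 ≤ u → u ≤ B → ‖AA riemannZeta U1 U2 u t -
      (1 / Real.sqrt (2 * Real.pi) : ℝ) * (L * cexp (I * u * t) * Real.exp (-u ^ 2 / 2) -
        ∑ n ∈ Finset.Icc 1 X, pterm lamC u t n)‖ ≤ C * Real.exp (-u) + E) :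
    ‖HT B U1 U2 t - (1 / Real.sqrt (2 * Real.pi) : ℝ) * (L * (GB B 1 : ℂ) - PD B X t)‖ ≤
      ∫ u in (0 : ℝ)..B, (1 - u / B) * (C * Real.exp (-u) + E) := by
  have hAA : Continuous fun u : ℝ => AA riemannZeta U1 U2 u t := by
    simp_rw [AA_eq good_zeta hU, hh_eq]
    fun_prop
  set c : ℂ := ((1 / Real.sqrt (2 * Real.pi) : ℝ) : ℂ) with hc
  -- the prime terms
  have hp : ∀ n ∈ Finset.Icc 1 X, ∀ u : ℝ, cexp (-(I * (u : ℂ) * t)) * pterm lamC u t n =
      lamC n * (Real.sqrt n : ℂ)⁻¹ * (n : ℂ) ^ (-(t : ℂ) * I) *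
        ((Real.exp (-(u - Real.log n) ^ 2 / 2) : ℝ) : ℂ) := by
    intro n hn u
    have hn1 : 1 ≤ n := (Finset.mem_Icc.mp hn).1
    have hn0 : (n : ℂ) ≠ 0 := by exact_mod_cast (by omega : n ≠ 0)
    unfold H370.pterm
    have h3 : cexp (I * t * (u - Real.log n)) = cexp (I * (u : ℂ) * t) *
        (n : ℂ) ^ (-(t : ℂ) * I) := by
      rw [Complex.cpow_def_of_ne_zero hn0, ← Complex.exp_add, ← Complex.natCast_log]
      congr 1
      ring
    have h4 : cexp (-(I * (u : ℂ) * t)) * cexp (I * (u : ℂ) * t) = 1 := by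
      rw [← Complex.exp_add, neg_add_cancel, Complex.exp_zero]
    rw [h3]
    linear_combination (lamC n * (Real.sqrt n : ℂ)⁻¹ * (n : ℂ) ^ (-(t : ℂ) * I) *
        ((Real.exp (-(u - Real.log n) ^ 2 / 2) : ℝ) : ℂ)) * h4
  have hmain : c * (L * (GB B 1 : ℂ) - PD B X t) =
      ∫ u in (0 : ℝ)..B, ((1 - u / B : ℝ) : ℂ) * cexp (-(I * (u : ℂ) * t)) *
        (c * (L * cexp (I * (u : ℂ) * t) * Real.exp (-u ^ 2 / 2) -
        ∑ n ∈ Finset.Icc 1 X, pterm lamC u t n)) := by
    have e1 : ∀ u : ℝ, ((1 - u / B : ℝ) : ℂ) * cexp (-(I * (u : ℂ) * t)) *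
        (c * (L * cexp (I * (u : ℂ) * t) * Real.exp (-u ^ 2 / 2) -
        ∑ n ∈ Finset.Icc 1 X, pterm lamC u t n)) =
        c * (L * (((1 - u / B) * Real.exp (-(u - Real.log ((1 : ℕ) : ℝ)) ^ 2 / 2) : ℝ) : ℂ)) -
        c * ∑ n ∈ Finset.Icc 1 X, (lamC n * (Real.sqrt n : ℂ)⁻¹ * (n : ℂ) ^ (-(t : ℂ) * I)) *
          (((1 - u / B) * Real.exp (-(u - Real.log n) ^ 2 / 2) : ℝ) : ℂ) := by
      intro u
      have h4 : cexp (-(I * (u : ℂ) * t)) * cexp (I * (u : ℂ) * t) = 1 := by
        rw [← Complex.exp_add, neg_add_cancel, Complex.exp_zero]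
      have h5 : ((1 - u / B : ℝ) : ℂ) * cexp (-(I * (u : ℂ) * t)) *
          ∑ n ∈ Finset.Icc 1 X, pterm lamC u t n =
          ∑ n ∈ Finset.Icc 1 X, (lamC n * (Real.sqrt n : ℂ)⁻¹ * (n : ℂ) ^ (-(t : ℂ) * I)) *
          (((1 - u / B) * Real.exp (-(u - Real.log n) ^ 2 / 2) : ℝ) : ℂ) := by
        rw [Finset.mul_sum]
        refine Finset.sum_congr rfl fun n hn => ?_
        rw [mul_assoc, hp n hn u]
        push_cast
        ring
      rw [← h5]
      rw [Nat.cast_one, Real.log_one, sub_zero]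
      push_cast at h4 ⊢
      linear_combination ((1 - (u : ℂ) / B) * c * L * cexp (-(u : ℂ) ^ 2 / 2)) * h4
    simp_rw [e1]
    rw [intervalIntegral.integral_sub (Continuous.intervalIntegrable (by fun_prop) _ _)
      (Continuous.intervalIntegrable (by fun_prop) _ _),
      intervalIntegral.integral_const_mul, intervalIntegral.integral_const_mul,
      intervalIntegral.integral_const_mul, intervalIntegral.integral_ofReal,
      intervalIntegral.integral_finsetSum fun n _ =>
        Continuous.intervalIntegrable (by fun_prop) _ _]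
    simp_rw [intervalIntegral.integral_const_mul, intervalIntegral.integral_ofReal]
    unfold PD GB
    rw [mul_sub]
    congr 2
    refine Finset.sum_congr rfl fun n _ => ?_
    ring
  rw [hmain]
  unfold HT
  have hpt : Continuous fun u : ℝ => ∑ n ∈ Finset.Icc 1 X, pterm lamC u t n := by
    unfold H370.pterm
    fun_prop
  rw [← intervalIntegral.integral_sub (Continuous.intervalIntegrable (by fun_prop) _ _)
    (Continuous.intervalIntegrable (by fun_prop) _ _)]
  refine (intervalIntegral.norm_integral_le_integral_norm hB.le).trans ?_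
  refine intervalIntegral.integral_mono_on hB.le
    (Continuous.intervalIntegrable (by fun_prop) _ _)
    (Continuous.intervalIntegrable (by fun_prop) _ _) fun u hu => ?_
  have h1 := h u hu.1 hu.2
  have h0 : 0 ≤ 1 - u / B := by
    rw [sub_nonneg, div_le_one hB]
    exact hu.2
  rw [← mul_sub, norm_mul, norm_mul, Complex.norm_real, Real.norm_of_nonneg h0]
  have h2 : ‖cexp (-(I * (u : ℂ) * t))‖ = 1 := by
    rw [show (-(I * (u : ℂ) * t) : ℂ) = ((-(u * t) : ℝ) : ℂ) * I by push_cast; ring,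
      Complex.norm_exp_ofReal_mul_I]
  rw [h2, mul_one]
  exact mul_le_mul_of_nonneg_left h1 h0

lemma int_e (b : ℝ) : ∫ v in (0 : ℝ)..b, Real.exp (-v) = 1 - Real.exp (-b) := by
  have hd : ∀ v ∈ Set.uIcc (0 : ℝ) b, HasDerivAt (fun v : ℝ => -Real.exp (-v))
      (Real.exp (-v)) v := by
    intro v _
    have h1 : HasDerivAt (fun v : ℝ => -v) (-1) v := hasDerivAt_neg v
    refine (h1.exp.neg).congr_deriv ?_
    ring
  rw [intervalIntegral.integral_eq_sub_of_hasDerivAt hd
    (Continuous.intervalIntegrable (by fun_prop) _ _)]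
  norm_num
  ring

lemma Err_le (B C E : ℝ) (hB : 0 < B) (hC : 0 ≤ C) (hE : 0 ≤ E) :
    ∫ u in (0 : ℝ)..B, (1 - u / B) * (C * Real.exp (-u) + E) ≤ C + B * E := by
  calc ∫ u in (0 : ℝ)..B, (1 - u / B) * (C * Real.exp (-u) + E) ≤
      ∫ u in (0 : ℝ)..B, (C * Real.exp (-u) + E) := by
        refine intervalIntegral.integral_mono_on hB.le
          (Continuous.intervalIntegrable (by fun_prop) _ _)
          (Continuous.intervalIntegrable (by fun_prop) _ _) fun u hu => ?_
        have h1 : 1 - u / B ≤ 1 := by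
          have : 0 ≤ u / B := div_nonneg hu.1 hB.le
          linarith
        have h3 : 0 ≤ C * Real.exp (-u) + E := by positivity
        nlinarith
    _ = C * (1 - Real.exp (-B)) + B * E := by
        rw [intervalIntegral.integral_add (Continuous.intervalIntegrable (by fun_prop) _ _)
          (Continuous.intervalIntegrable (by fun_prop) _ _), intervalIntegral.integral_const_mul,
          int_e, intervalIntegral.integral_const, smul_eq_mul, sub_zero]
    _ ≤ C + B * E := by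
        have := Real.exp_pos (-B)
        nlinarith

theorem t_EX : S_EX := by
  obtain ⟨C1, T1, hC1, hT1, hEF⟩ := ef_known good_zeta (a := lamC) (fun n => (lamC_norm n).le)
    (fun s hs _ => ld_zeta s hs)
  have ha : ∀ n, ‖lamC n‖ ≤ ArithmeticFunction.vonMangoldt n := fun n => (lamC_norm n).le
  have hpi := Real.pi_pos
  set ζ2 : ℝ := ∑' n : ℕ, 1 / (n : ℝ) ^ 2 with hζ2
  have hζ0 : 0 ≤ ζ2 := tsum_nonneg fun n => by positivity
  set c0 : ℝ := 1 / Real.sqrt (2 * Real.pi) with hc0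
  have hs1 : 1 ≤ Real.sqrt (2 * Real.pi) := by
    rw [Real.one_le_sqrt]; linarith [Real.pi_gt_three]
  have hc00 : 0 < c0 := by positivity
  have hc01 : c0 ≤ 1 := by rw [hc0, div_le_one (by positivity)]; exact hs1
  -- the truncation error
  set EE : ℝ → ℝ := fun L => 2 * ζ2 * (Real.exp (4 + L) * Real.exp (-(L / 16) ^ 2 / 4)) with hEE
  have hE0 : Tendsto (fun L : ℝ => L * EE L) atTop (𝓝 0) := by
    have h1 : Tendsto (fun L : ℝ => 4 + 2 * L + -(L / 16) ^ 2 / 4) atTop atBot := by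
      have h2 : Tendsto (fun L : ℝ => L * (L / 1024 - 2)) atTop atTop := by
        apply Tendsto.atTop_mul_atTop₀ tendsto_id
        exact tendsto_atTop_add_const_right _ _ (tendsto_id.atTop_div_const (by norm_num))
      have h3 := (tendsto_neg_atTop_atBot.comp h2)
      have h4 := tendsto_atBot_add_const_left _ 4 h3
      refine h4.congr fun L => ?_
      simp only [Function.comp_apply]
      ring
    have h2 := (Real.tendsto_exp_atBot.comp h1).const_mul (2 * ζ2)
    rw [mul_zero] at h2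
    refine squeeze_zero' ?_ ?_ h2
    · filter_upwards [eventually_ge_atTop 0] with L hL
      have : 0 ≤ EE L := by simp only [hEE]; positivity
      positivity
    · filter_upwards [eventually_ge_atTop 0] with L hL
      have h3 : L ≤ Real.exp L := by
        have := Real.add_one_le_exp L
        linarith
      simp only [Function.comp_apply, hEE]
      have h4 : Real.exp (4 + 2 * L + -(L / 16) ^ 2 / 4) =
          Real.exp L * (Real.exp (4 + L) * Real.exp (-(L / 16) ^ 2 / 4)) := by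
        rw [← Real.exp_add, ← Real.exp_add]
        congr 1
        ring
      rw [h4]
      have h5 : 0 ≤ 2 * ζ2 * (Real.exp (4 + L) * Real.exp (-(L / 16) ^ 2 / 4)) := by positivity
      nlinarith [mul_le_mul_of_nonneg_right h3 h5]
  have hlog := Real.tendsto_log_atTop
  have hev1 : ∀ᶠ T : ℝ in atTop, Real.log T * EE (Real.log T) ≤ 1 :=
    (hE0.comp hlog).eventually_le_const one_pos
  have hev2 : ∀ᶠ T : ℝ in atTop, 8 * Real.log (Real.log T) ≤ Real.log T / 16 := by
    have h1 : (fun L : ℝ => 8 * Real.log L) =o[atTop] fun L : ℝ => L :=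
      Asymptotics.IsLittleO.const_mul_left Real.isLittleO_log_id_atTop _
    have h2 := h1.bound (c := 1 / 16) (by norm_num)
    have h3 := hlog.eventually (h2.and (eventually_ge_atTop 1))
    filter_upwards [h3] with T hT
    obtain ⟨h4, h5⟩ := hT
    rw [Real.norm_of_nonneg (by linarith : (0 : ℝ) ≤ Real.log T)] at h4
    have h6 := (le_abs_self _).trans h4
    linarith
  obtain ⟨T2, hT2⟩ := (hev1.and hev2).exists_forall_of_atTop
  refine ⟨2 * (C1 + 1), max T1 T2, by positivity, hT1.trans (le_max_left _ _), fun T hT => ?_⟩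
  have hTT1 : T1 ≤ T := (le_max_left _ _).trans hT
  obtain ⟨g1, g2⟩ := hT2 T ((le_max_right _ _).trans hT)
  obtain ⟨U1, U2, hU1, hU2, hU3, hU4, hef⟩ := hEF T hTT1
  refine ⟨U1, U2, hU1, hU2, hU3, hU4, fun B t hB1 hB2 ht1 ht2 => ?_⟩
  have hT10 : 10 ≤ T := hT1.trans hTT1
  have hT0 : 0 < T := by linarith
  have hL0 : 0 < Real.log T := Real.log_pos (by linarith)
  set L := Real.log T with hL
  have hB0 : 0 < B := by linarith
  have hBL : B ≤ L / 16 := by linarith
  set X : ℕ := ⌊T ^ (1 / 8 : ℝ)⌋₊ with hX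
  have hXlog : 1 / 8 * L ≤ Real.log (X + 1) := by
    rw [hL, ← Real.log_rpow hT0]
    exact Real.log_le_log (by positivity) (Nat.lt_floor_add_one _).le
  have hU : 1 ≤ U1 := by linarith
  have h1 := H_est B U1 U2 t L C1 (EE L) X hU hB0 (by
    intro u hu0 hu1
    have h2 := hef u t hu0 (by linarith) ht1 ht2
    have h3 := H370.PP_trunc ha u t (L / 16) X (by positivity) (by linarith)
    have h4 : Real.exp (4 + 2 * u) ≤ Real.exp (4 + L) := Real.exp_le_exp.2 (by linarith)
    have e1 : AA riemannZeta U1 U2 u t - (c0 : ℂ) *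
        (L * cexp (I * u * t) * Real.exp (-u ^ 2 / 2) - ∑ n ∈ Finset.Icc 1 X, pterm lamC u t n) =
        (AA riemannZeta U1 U2 u t - (c0 : ℂ) *
          (L * cexp (I * u * t) * Real.exp (-u ^ 2 / 2) - H370.PP lamC u t)) -
        (c0 : ℂ) * (H370.PP lamC u t - ∑ n ∈ Finset.Icc 1 X, pterm lamC u t n) := by ring
    rw [e1]
    refine (norm_sub_le _ _).trans (add_le_add h2 ?_)
    rw [norm_mul, Complex.norm_real, Real.norm_of_nonneg hc00.le]
    calc c0 * ‖H370.PP lamC u t - ∑ n ∈ Finset.Icc 1 X, pterm lamC u t n‖ ≤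
        1 * (2 * ζ2 * (Real.exp (4 + 2 * u) * Real.exp (-(L / 16) ^ 2 / 4))) := by
          apply mul_le_mul hc01 h3 (norm_nonneg _) zero_le_one
      _ ≤ EE L := by
          rw [one_mul]
          show 2 * ζ2 * (Real.exp (4 + 2 * u) * Real.exp (-(L / 16) ^ 2 / 4)) ≤
            2 * ζ2 * (Real.exp (4 + L) * Real.exp (-(L / 16) ^ 2 / 4))
          gcongr)
  have hEL : 0 ≤ EE L := by simp only [hEE]; positivity
  have h2 := Err_le B C1 (EE L) hB0 hC1.le hEL
  have h3 : B * EE L ≤ 1 := by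
    refine le_trans ?_ g1
    exact mul_le_mul_of_nonneg_right (by linarith) hEL
  rw [full_re B hU t, ← PD_re B X t]
  set HH := HT B U1 U2 t with hHH
  set D := PD B X t with hD
  have e2 : ((c0 : ℂ) * (L * (GB B 1 : ℂ) - D)).re = c0 * (L * GB B 1 - D.re) := by
    rw [Complex.re_ofReal_mul, Complex.sub_re, ← Complex.ofReal_mul, Complex.ofReal_re]
  have e1 : 2 * HH.re - 2 / Real.sqrt (2 * Real.pi) * (L * GB B 1 - D.re) =
      2 * (HH - (c0 : ℂ) * (L * (GB B 1 : ℂ) - D)).re := by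
    rw [Complex.sub_re, e2, hc0]
    ring
  rw [e1, abs_mul, abs_of_pos (by norm_num : (0 : ℝ) < 2)]
  have h4 := Complex.abs_re_le_norm (HH - (c0 : ℂ) * (L * (GB B 1 : ℂ) - D))
  have h5 := h1.trans h2
  rw [← hc0] at h5
  linarith

end Pool.Agent.Y576.OM
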